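import Mathlib
import Pool.Agent.R735.AInf.Poly

set_option autoImplicit false

namespace Pool.Agent.R735.AInf

/-- the weight, as a polynomial in `cos x` and `sin x` -/
noncomputable def Pf (X Y : ℝ) : ℝ :=
  10000 + 4459 * X + 345 * Y + 3707 * (X ^ 2 - Y ^ 2) - 332 * (2 * X * Y) +
    886 * (X ^ 3 - 3 * X * Y ^ 2) + 215 * (3 * X ^ 2 * Y - Y ^ 3) -
    304 * (X ^ 4 - 6 * X ^ 2 * Y ^ 2 + Y ^ 4) + 20 * (4 * X ^ 3 * Y - 4 * X * Y ^ 3)

/-- rational parametrisation of the half angle -/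
lemma exists_param (X Y : ℝ) (h : X ^ 2 + Y ^ 2 = 1) : ∃ t : ℝ, -1 ≤ t ∧ t ≤ 1 ∧
    X = ((1 - t ^ 2) ^ 2 - 4 * t ^ 2) / (1 + t ^ 2) ^ 2 ∧ Y = 4 * t * (1 - t ^ 2) / (1 + t ^ 2) ^ 2 ∧
    Real.sqrt (2 + 2 * X) = 2 * (1 - t ^ 2) / (1 + t ^ 2) := by
  have hX : -1 ≤ X := by nlinarith [sq_nonneg Y]
  rcases hX.eq_or_lt with hX1 | hX1
  · refine ⟨1, by norm_num, le_refl _, ?_, ?_, ?_⟩
    · rw [← hX1]; norm_num
    · have : Y ^ 2 = 0 := by rw [← hX1] at h; linarith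
      have hY : Y = 0 := by simpa using this
      rw [hY]; norm_num
    · rw [← hX1]; norm_num
  · set c := Real.sqrt ((1 + X) / 2) with hc
    have hc2 : c ^ 2 = (1 + X) / 2 := Real.sq_sqrt (by linarith)
    have hc0 : 0 < c := Real.sqrt_pos.mpr (by linarith)
    have hXc : X = 2 * c ^ 2 - 1 := by rw [hc2]; ring
    obtain ⟨σ, hσ⟩ : ∃ σ : ℝ, σ = Y / (2 * c) := ⟨_, rfl⟩
    have hY : Y = 2 * c * σ := by rw [hσ]; field_simp
    have hcs : c ^ 2 + σ ^ 2 = 1 := by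
      have h1 : (2 * c ^ 2 - 1) ^ 2 + (2 * c * σ) ^ 2 = 1 := by rw [← hXc, ← hY]; exact h
      have h2 : 4 * c ^ 2 * (c ^ 2 + σ ^ 2 - 1) = 0 := by nlinarith
      have h3 : c ^ 2 + σ ^ 2 - 1 = 0 := by
        rcases mul_eq_zero.mp h2 with h3 | h3
        · exact absurd h3 (by positivity)
        · exact h3
      linarith
    have hcp : 0 < 1 + c := by linarith
    refine ⟨σ / (1 + c), ?_, ?_, ?_, ?_, ?_⟩
    · rw [le_div_iff₀ hcp]; nlinarith [sq_nonneg (σ + (1 + c)), sq_nonneg σ]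
    · rw [div_le_iff₀ hcp]; nlinarith [sq_nonneg (σ - (1 + c)), sq_nonneg σ]
    all_goals
      have ht2 : (σ / (1 + c)) ^ 2 = (1 - c) / (1 + c) := by
        rw [div_pow, div_eq_div_iff (by positivity) (by positivity)]
        have : σ ^ 2 = (1 - c) * (1 + c) := by linarith
        rw [this]; ring
      have e1 : 1 - (σ / (1 + c)) ^ 2 = 2 * c / (1 + c) := by rw [ht2]; field_simp; ring
      have e2 : 1 + (σ / (1 + c)) ^ 2 = 2 / (1 + c) := by rw [ht2]; field_simp; ring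
    · rw [e1, e2, ht2, hXc]; field_simp; ring
    · rw [mul_assoc, e1, e2, hY]; field_simp; ring
    · rw [e1, e2]
      have e3 : 2 + 2 * X = (2 * c) ^ 2 := by rw [hXc]; ring
      rw [e3, Real.sqrt_sq (by positivity)]
      field_simp

lemma Pf_pos (X Y : ℝ) (h : X ^ 2 + Y ^ 2 = 1) : 0 < Pf X Y := by
  obtain ⟨t, h1, h2, hX, hY, -⟩ := exists_param X Y h
  have hD : (0 : ℝ) < 1 + t ^ 2 := by positivity
  have key : Pf X Y = PP t / (1 + t ^ 2) ^ 8 := by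
    rw [hX, hY, Pf, PP]
    field_simp
    ring
  rw [key]
  exact div_pos (PP_pos t h1 h2) (by positivity)

/-- the main inequality: `|1+ζ| P(ζ) + P(qζ) ≤ s P(ζ̄)` with `q = (-60+11i)/61`, `s = 306/125` -/
lemma main_ineq (X Y : ℝ) (h : X ^ 2 + Y ^ 2 = 1) :
    Real.sqrt (2 + 2 * X) * Pf X Y + Pf ((-60 * X - 11 * Y) / 61) ((11 * X - 60 * Y) / 61) ≤
      306 / 125 * Pf X (-Y) := by
  obtain ⟨t, h1, h2, hX, hY, hr⟩ := exists_param X Y h
  have hD : (0 : ℝ) < 1 + t ^ 2 := by positivity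
  have key : 306 / 125 * Pf X (-Y) - (2 * (1 - t ^ 2) / (1 + t ^ 2) * Pf X Y +
      Pf ((-60 * X - 11 * Y) / 61) ((11 * X - 60 * Y) / 61)) = FF t / (1730730125 * (1 + t ^ 2) ^ 9) := by
    rw [hX, hY, Pf, Pf, Pf, FF]
    field_simp
    ring
  have h3 : 0 ≤ FF t / (1730730125 * (1 + t ^ 2) ^ 9) := div_nonneg (FF_nonneg t h1 h2) (by positivity)
  rw [hr]
  linarith

end Pool.Agent.R735.AInf
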