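import Mathlib
import Pool.Agent.R735.AInf.Trig

set_option autoImplicit false

open Finset ComplexConjugate

namespace Pool.Agent.R735.AInf

/-- weighted Schur test for a bidiagonal matrix -/
lemma schur_bidiag (N : ℕ) (V : ℕ → ℂ) (hV : V N = 0) (d : ℕ → ℝ) (p m m' : ℕ → ℝ) (s : ℝ)
    (hs : 0 ≤ s) (hd : ∀ k, 0 ≤ d k) (hp : ∀ k, 0 < p k) (hm' : ∀ k, 0 < m' k)
    (hmm : ∀ k, m' (k + 1) = m k) (h1 : ∀ k, d k * p k + p (k + 1) ≤ s * m k)
    (h2 : ∀ k, d k * m k + m' k ≤ s * p k) :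
    ∑ k ∈ range N, (d k * ‖V k‖ + ‖V (k + 1)‖) ^ 2 ≤ s ^ 2 * ∑ k ∈ range N, ‖V k‖ ^ 2 := by
  have a1 : ∀ k, (d k * ‖V k‖ + ‖V (k + 1)‖) ^ 2 ≤
      s * m k * (d k * (‖V k‖ ^ 2 / p k) + ‖V (k + 1)‖ ^ 2 / p (k + 1)) := by
    intro k
    have hpk := hp k
    have hpk1 := hp (k + 1)
    have e1 : (d k * ‖V k‖ + ‖V (k + 1)‖) ^ 2 ≤
        (d k * p k + p (k + 1)) * (d k * (‖V k‖ ^ 2 / p k) + ‖V (k + 1)‖ ^ 2 / p (k + 1)) := by
      have e2 : (d k * p k + p (k + 1)) * (d k * (‖V k‖ ^ 2 / p k) + ‖V (k + 1)‖ ^ 2 / p (k + 1)) -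
          (d k * ‖V k‖ + ‖V (k + 1)‖) ^ 2 =
          d k * (p (k + 1) * ‖V k‖ - p k * ‖V (k + 1)‖) ^ 2 / (p k * p (k + 1)) := by
        field_simp
        ring
      have e3 : 0 ≤ d k * (p (k + 1) * ‖V k‖ - p k * ‖V (k + 1)‖) ^ 2 / (p k * p (k + 1)) :=
        div_nonneg (mul_nonneg (hd k) (sq_nonneg _)) (by positivity)
      linarith
    refine e1.trans ?_
    have e4 : 0 ≤ d k * (‖V k‖ ^ 2 / p k) + ‖V (k + 1)‖ ^ 2 / p (k + 1) := by
      have := hd k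
      positivity
    exact mul_le_mul_of_nonneg_right (h1 k) e4
  have a2 : ∑ k ∈ range N, m' (k + 1) * (‖V (k + 1)‖ ^ 2 / p (k + 1)) ≤
      ∑ k ∈ range N, m' k * (‖V k‖ ^ 2 / p k) := by
    have e1 := Finset.sum_range_succ' (fun k => m' k * (‖V k‖ ^ 2 / p k)) N
    have e2 := Finset.sum_range_succ (fun k => m' k * (‖V k‖ ^ 2 / p k)) N
    rw [e1] at e2
    have e3 : m' N * (‖V N‖ ^ 2 / p N) = 0 := by rw [hV]; simp
    have e4 : 0 ≤ m' 0 * (‖V 0‖ ^ 2 / p 0) := by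
      have := hm' 0; have := hp 0; positivity
    linarith
  calc ∑ k ∈ range N, (d k * ‖V k‖ + ‖V (k + 1)‖) ^ 2
      ≤ ∑ k ∈ range N, s * m k * (d k * (‖V k‖ ^ 2 / p k) + ‖V (k + 1)‖ ^ 2 / p (k + 1)) :=
        Finset.sum_le_sum fun k _ => a1 k
    _ = s * (∑ k ∈ range N, d k * m k * (‖V k‖ ^ 2 / p k) +
        ∑ k ∈ range N, m' (k + 1) * (‖V (k + 1)‖ ^ 2 / p (k + 1))) := by
        rw [← Finset.sum_add_distrib, Finset.mul_sum]
        refine Finset.sum_congr rfl fun k _ => ?_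
        rw [hmm]; ring
    _ ≤ s * (∑ k ∈ range N, d k * m k * (‖V k‖ ^ 2 / p k) +
        ∑ k ∈ range N, m' k * (‖V k‖ ^ 2 / p k)) := by gcongr
    _ = s * ∑ k ∈ range N, (d k * m k + m' k) * (‖V k‖ ^ 2 / p k) := by
        rw [← Finset.sum_add_distrib]
        congr 1
        refine Finset.sum_congr rfl fun k _ => ?_
        ring
    _ ≤ s * ∑ k ∈ range N, s * p k * (‖V k‖ ^ 2 / p k) := by
        gcongr with k hk
        · have := hp k; positivity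
        · exact h2 k
    _ = s ^ 2 * ∑ k ∈ range N, ‖V k‖ ^ 2 := by
        rw [Finset.mul_sum, Finset.mul_sum]
        refine Finset.sum_congr rfl fun k _ => ?_
        have := (hp k).ne'
        field_simp

/-- the weight as a function of a complex number -/
noncomputable def Pc (ζ : ℂ) : ℝ := Pf ζ.re ζ.im

/-- `q = (-60 + 11 i)/61` -/
noncomputable def q : ℂ := ⟨-60 / 61, 11 / 61⟩

lemma norm_q : ‖q‖ = 1 := by
  rw [Complex.norm_def, Complex.normSq_apply]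
  simp only [q]
  rw [show (-60 / 61 : ℝ) * (-60 / 61) + 11 / 61 * (11 / 61) = 1 by norm_num, Real.sqrt_one]

lemma unit_sq {ζ : ℂ} (h : ‖ζ‖ = 1) : ζ.re ^ 2 + ζ.im ^ 2 = 1 := by
  have h1 : Complex.normSq ζ = 1 := by rw [Complex.normSq_eq_norm_sq, h]; norm_num
  rw [Complex.normSq_apply] at h1
  linarith

lemma Pc_pos {ζ : ℂ} (h : ‖ζ‖ = 1) : 0 < Pc ζ := Pf_pos _ _ (unit_sq h)

lemma Pc_ineq {ζ : ℂ} (h : ‖ζ‖ = 1) : ‖1 + ζ‖ * Pc ζ + Pc (q * ζ) ≤ 306 / 125 * Pc (conj ζ) := by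
  have h1 := main_ineq ζ.re ζ.im (unit_sq h)
  have h2 : ‖1 + ζ‖ = Real.sqrt (2 + 2 * ζ.re) := by
    rw [Complex.norm_def, Complex.normSq_apply]
    congr 1
    have := unit_sq h
    simp only [Complex.add_re, Complex.one_re, Complex.add_im, Complex.one_im]
    nlinarith
  rw [h2]
  have h3 : Pc (q * ζ) = Pf ((-60 * ζ.re - 11 * ζ.im) / 61) ((11 * ζ.re - 60 * ζ.im) / 61) := by
    rw [Pc, Complex.mul_re, Complex.mul_im]
    congr 1 <;> simp only [q] <;> ring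
  have h4 : Pc (conj ζ) = Pf ζ.re (-ζ.im) := by
    rw [Pc, Complex.conj_re, Complex.conj_im]
  rw [h3, h4]
  exact h1

/-- the basic estimate for the three matrices `1, diag(q^k)`, shift, at unimodular coefficients -/
lemma torus_bound (N : ℕ) (V : ℕ → ℂ) (hV : V N = 0) (a b c : ℂ) (ha : ‖a‖ = 1) (hb : ‖b‖ = 1)
    (hc : ‖c‖ = 1) :
    ∑ k ∈ range N, ‖(a + b * q ^ k) * V k + c * V (k + 1)‖ ^ 2 ≤
      (306 / 125) ^ 2 * ∑ k ∈ range N, ‖V k‖ ^ 2 := by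
  set ζ : ℕ → ℂ := fun k => conj a * b * q ^ k with hζ
  have hζn : ∀ k, ‖ζ k‖ = 1 := by
    intro k
    simp [hζ, ha, hb, norm_q]
  have hd : ∀ k, ‖a + b * q ^ k‖ = ‖1 + ζ k‖ := by
    intro k
    have h1 : a + b * q ^ k = a * (1 + ζ k) := by
      have h2 : a * conj a = 1 := by rw [Complex.mul_conj, Complex.normSq_eq_norm_sq, ha]; norm_num
      simp only [hζ]
      calc a + b * q ^ k = a + (a * conj a) * (b * q ^ k) := by rw [h2, one_mul]
        _ = a * (1 + conj a * b * q ^ k) := by ring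
    rw [h1, norm_mul, ha, one_mul]
  have hζs : ∀ k, ζ (k + 1) = q * ζ k := by
    intro k
    simp only [hζ, pow_succ]; ring
  have hqq : q * conj q = 1 := by rw [Complex.mul_conj, Complex.normSq_eq_norm_sq, norm_q]; norm_num
  have key := schur_bidiag N V hV (fun k => ‖1 + ζ k‖) (fun k => Pc (ζ k)) (fun k => Pc (conj (ζ k)))
    (fun k => Pc (q * conj (ζ k))) (306 / 125) (by norm_num) (fun k => norm_nonneg _)
    (fun k => Pc_pos (hζn k))
    (fun k => Pc_pos (by rw [norm_mul, norm_q, one_mul, RCLike.norm_conj]; exact hζn k))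
    (fun k => by
      have : q * conj (ζ (k + 1)) = conj (ζ k) := by
        rw [hζs, map_mul, ← mul_assoc, hqq, one_mul]
      show Pc (q * conj (ζ (k + 1))) = Pc (conj (ζ k))
      rw [this])
    (fun k => by
      show ‖1 + ζ k‖ * Pc (ζ k) + Pc (ζ (k + 1)) ≤ 306 / 125 * Pc (conj (ζ k))
      rw [hζs]; exact Pc_ineq (hζn k))
    (fun k => by
      have h := Pc_ineq (ζ := conj (ζ k)) (by rw [RCLike.norm_conj]; exact hζn k)
      have h1 : ‖1 + conj (ζ k)‖ = ‖1 + ζ k‖ := by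
        rw [← RCLike.norm_conj (1 + conj (ζ k))]
        simp
      rw [h1, Complex.conj_conj] at h
      exact h)
  refine le_trans (Finset.sum_le_sum fun k _ => ?_) key
  have h1 : ‖(a + b * q ^ k) * V k + c * V (k + 1)‖ ≤ ‖1 + ζ k‖ * ‖V k‖ + ‖V (k + 1)‖ := by
    refine (norm_add_le _ _).trans ?_
    rw [norm_mul, norm_mul, hd, hc, one_mul]
  gcongr

/-- every point of the closed disc is the midpoint of two unimodular numbers -/
lemma midpoint_unit (z : ℂ) (hz : ‖z‖ ≤ 1) : ∃ w w' : ℂ, ‖w‖ = 1 ∧ ‖w'‖ = 1 ∧ z = (w + w') / 2 := by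
  by_cases h0 : z = 0
  · exact ⟨1, -1, by simp, by simp, by rw [h0]; ring⟩
  · have hn : 0 < ‖z‖ := norm_pos_iff.mpr h0
    set e : ℂ := z / ‖z‖ with he
    have hen : ‖e‖ = 1 := by
      rw [he, norm_div, Complex.norm_real, norm_norm, div_self hn.ne']
    set r := ‖z‖ with hr
    have h1 : 0 ≤ 1 - r ^ 2 := by nlinarith
    have h2 : ∀ y : ℝ, y ^ 2 = 1 - r ^ 2 → ‖(⟨r, y⟩ : ℂ)‖ = 1 := by
      intro y hy
      rw [Complex.norm_def, Complex.normSq_apply]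
      simp only
      rw [show r * r + y * y = 1 by nlinarith, Real.sqrt_one]
    refine ⟨e * ⟨r, Real.sqrt (1 - r ^ 2)⟩, e * ⟨r, -Real.sqrt (1 - r ^ 2)⟩, ?_, ?_, ?_⟩
    · rw [norm_mul, hen, one_mul]; exact h2 _ (Real.sq_sqrt h1)
    · rw [norm_mul, hen, one_mul]; exact h2 _ (by rw [neg_sq]; exact Real.sq_sqrt h1)
    · rw [← mul_add]
      have h3 : (⟨r, Real.sqrt (1 - r ^ 2)⟩ + ⟨r, -Real.sqrt (1 - r ^ 2)⟩ : ℂ) = 2 * (r : ℂ) := by
        apply Complex.ext <;> simp; ring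
      rw [h3, he]
      have : (r : ℂ) ≠ 0 := by exact_mod_cast hn.ne'
      field_simp

/-- midpoint convexity for `ℓ²` sums of affine functions -/
lemma mid_bound (N : ℕ) (F G : ℕ → ℂ) (C : ℝ)
    (h : ∀ w : ℂ, ‖w‖ = 1 → ∑ k ∈ range N, ‖F k + w * G k‖ ^ 2 ≤ C) (z : ℂ) (hz : ‖z‖ ≤ 1) :
    ∑ k ∈ range N, ‖F k + z * G k‖ ^ 2 ≤ C := by
  obtain ⟨w, w', hw, hw', rfl⟩ := midpoint_unit z hz
  have h1 := h w hw
  have h2 := h w' hw'
  have h3 : ∀ k, ‖F k + (w + w') / 2 * G k‖ ^ 2 ≤ (‖F k + w * G k‖ ^ 2 + ‖F k + w' * G k‖ ^ 2) / 2 := by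
    intro k
    have e : F k + (w + w') / 2 * G k = ((F k + w * G k) + (F k + w' * G k)) / 2 := by ring
    have h4 : ‖F k + (w + w') / 2 * G k‖ ≤ (‖F k + w * G k‖ + ‖F k + w' * G k‖) / 2 := by
      rw [e, norm_div]
      simp only [Complex.norm_ofNat]
      gcongr
      exact norm_add_le _ _
    have h5 : ‖F k + (w + w') / 2 * G k‖ ^ 2 ≤ ((‖F k + w * G k‖ + ‖F k + w' * G k‖) / 2) ^ 2 := by
      gcongr
    nlinarith [sq_nonneg (‖F k + w * G k‖ - ‖F k + w' * G k‖)]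
  calc ∑ k ∈ range N, ‖F k + (w + w') / 2 * G k‖ ^ 2
      ≤ ∑ k ∈ range N, (‖F k + w * G k‖ ^ 2 + ‖F k + w' * G k‖ ^ 2) / 2 :=
        Finset.sum_le_sum fun k _ => h3 k
    _ = (∑ k ∈ range N, ‖F k + w * G k‖ ^ 2 + ∑ k ∈ range N, ‖F k + w' * G k‖ ^ 2) / 2 := by
        rw [← Finset.sum_add_distrib, Finset.sum_div]
    _ ≤ C := by linarith

/-- the estimate on the closed polydisc -/
lemma polydisc_bound (N : ℕ) (V : ℕ → ℂ) (hV : V N = 0) (a b c : ℂ) (ha : ‖a‖ ≤ 1) (hb : ‖b‖ ≤ 1)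
    (hc : ‖c‖ ≤ 1) :
    ∑ k ∈ range N, ‖(a + b * q ^ k) * V k + c * V (k + 1)‖ ^ 2 ≤
      (306 / 125) ^ 2 * ∑ k ∈ range N, ‖V k‖ ^ 2 := by
  have h1 : ∀ a b c : ℂ, ‖a‖ = 1 → ‖b‖ = 1 → ‖c‖ ≤ 1 →
      ∑ k ∈ range N, ‖(a + b * q ^ k) * V k + c * V (k + 1)‖ ^ 2 ≤
      (306 / 125) ^ 2 * ∑ k ∈ range N, ‖V k‖ ^ 2 := by
    intro a b c ha hb hc
    exact mid_bound N (fun k => (a + b * q ^ k) * V k) (fun k => V (k + 1)) _
      (fun w hw => torus_bound N V hV a b w ha hb hw) c hc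
  have h2 : ∀ a b c : ℂ, ‖a‖ = 1 → ‖b‖ ≤ 1 → ‖c‖ ≤ 1 →
      ∑ k ∈ range N, ‖(a + b * q ^ k) * V k + c * V (k + 1)‖ ^ 2 ≤
      (306 / 125) ^ 2 * ∑ k ∈ range N, ‖V k‖ ^ 2 := by
    intro a b c ha hb hc
    have := mid_bound N (fun k => a * V k + c * V (k + 1)) (fun k => q ^ k * V k) _
      (fun w hw => by
        have e := h1 a w c ha hw hc
        refine le_trans (le_of_eq (Finset.sum_congr rfl fun k _ => ?_)) e
        congr 2; ring) b hb
    refine le_trans (le_of_eq (Finset.sum_congr rfl fun k _ => ?_)) this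
    congr 2; ring
  have := mid_bound N (fun k => b * q ^ k * V k + c * V (k + 1)) (fun k => V k) _
      (fun w hw => by
        have e := h2 w b c hw hb hc
        refine le_trans (le_of_eq (Finset.sum_congr rfl fun k _ => ?_)) e
        congr 2; ring) a ha
  refine le_trans (le_of_eq (Finset.sum_congr rfl fun k _ => ?_)) this
  congr 2; ring

end Pool.Agent.R735.AInf
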