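import Mathlib
import Pool.Agent.R735.AInf.Mat
import Pool.Agent.Helper547.Alpha.Lower

set_option autoImplicit false

open Finset ComplexConjugate Filter Topology
open scoped Matrix.Norms.L2Operator ComplexOrder
open Matrix

namespace Pool.Agent.R735.AInf

open Pool.Agent.Helper547.Alpha

/-- the truncated shift -/
def shiftM (N : ℕ) : Matrix (Fin N) (Fin N) ℂ := Matrix.of fun i j => if (j : ℕ) = i + 1 then 1 else 0

/-- the diagonal matrix `diag(q^k)` -/
noncomputable def diagM (N : ℕ) : Matrix (Fin N) (Fin N) ℂ := Matrix.diagonal fun k => q ^ (k : ℕ)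

/-- the three matrices `1`, `diag(q^k)` and the truncated shift -/
noncomputable def Am (N : ℕ) : Fin 3 → Matrix (Fin N) (Fin N) ℂ :=
  fun l => if l = 0 then 1 else if l = 1 then diagM N else shiftM N

lemma Am0 (N : ℕ) : Am N 0 = 1 := rfl
lemma Am1 (N : ℕ) : Am N 1 = diagM N := rfl
lemma Am2 (N : ℕ) : Am N 2 = shiftM N := rfl

lemma shiftM_apply (N : ℕ) (i j : Fin N) : shiftM N i j = if (j : ℕ) = i + 1 then 1 else 0 := rfl

lemma shiftM_mulVec (N : ℕ) (x : Fin N → ℂ) (k : Fin N) :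
    (shiftM N *ᵥ x) k = if h : (k : ℕ) + 1 < N then x ⟨k + 1, h⟩ else 0 := by
  simp only [Matrix.mulVec, dotProduct, shiftM_apply]
  split_ifs with h
  · rw [Finset.sum_eq_single (⟨k + 1, h⟩ : Fin N)]
    · simp
    · intro j _ hj
      have : ¬ ((j : ℕ) = k + 1) := fun e => hj (Fin.ext e)
      rw [if_neg this, zero_mul]
    · intro h'; exact absurd (Finset.mem_univ _) h'
  · apply Finset.sum_eq_zero
    intro j _
    have : ¬ ((j : ℕ) = k + 1) := by
      intro e
      exact h (e ▸ j.2)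
    rw [if_neg this, zero_mul]

lemma Am_sum_mulVec (N : ℕ) (z : Fin 3 → ℂ) (x : Fin N → ℂ) (k : Fin N) :
    ((∑ l, z l • Am N l) *ᵥ x) k = (z 0 + z 1 * q ^ (k : ℕ)) * x k +
      z 2 * (if h : (k : ℕ) + 1 < N then x ⟨k + 1, h⟩ else 0) := by
  have h0 : ((Am N 0) *ᵥ x) k = x k := by rw [Am0, Matrix.one_mulVec]
  have h1 : ((Am N 1) *ᵥ x) k = q ^ (k : ℕ) * x k := by
    rw [Am1, diagM, Matrix.mulVec_diagonal]
  have h2 : ((Am N 2) *ᵥ x) k = if h : (k : ℕ) + 1 < N then x ⟨k + 1, h⟩ else 0 := by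
    rw [Am2, shiftM_mulVec]
  rw [Fin.sum_univ_three, Matrix.add_mulVec, Matrix.add_mulVec, Matrix.smul_mulVec, Matrix.smul_mulVec,
    Matrix.smul_mulVec, Pi.add_apply, Pi.add_apply, Pi.smul_apply, Pi.smul_apply, Pi.smul_apply, h0, h1, h2]
  simp only [smul_eq_mul]
  ring

lemma Am_norm (N : ℕ) (z : Fin 3 → ℂ) (hz : ∀ l, ‖z l‖ ≤ 1) : ‖∑ l, z l • Am N l‖ ≤ 306 / 125 := by
  rw [l2_le_iff _ (by norm_num)]
  intro x
  set V : ℕ → ℂ := fun k => if h : k < N then x ⟨k, h⟩ else 0 with hV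
  have hVN : V N = 0 := by simp [hV]
  have hVk : ∀ k : Fin N, V k = x k := by intro k; simp [hV]
  have h1 := polydisc_bound N V hVN (z 0) (z 1) (z 2) (hz 0) (hz 1) (hz 2)
  rw [Finset.sum_range, Finset.sum_range] at h1
  refine le_trans (le_of_eq (Finset.sum_congr rfl fun k _ => ?_)) (h1.trans (le_of_eq ?_))
  · rw [Am_sum_mulVec, hVk]
  · simp only [hVk]

/-- the map `z ↦ s⁻¹ ∑ z_l A_l` -/
noncomputable def u3 (N : ℕ) : (Fin 3 → ℂ) →L[ℂ]
    (EuclideanSpace ℂ (Fin N) →L[ℂ] EuclideanSpace ℂ (Fin N)) :=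
  ((125 / 306 : ℝ) : ℂ) •
    ∑ l, ContinuousLinearMap.smulRight (ContinuousLinearMap.proj l : (Fin 3 → ℂ) →L[ℂ] ℂ) (op (Am N l))

lemma u3_apply (N : ℕ) (v : Fin 3 → ℂ) :
    u3 N v = ((125 / 306 : ℝ) : ℂ) • ∑ l, v l • op (Am N l) := by
  rw [u3, _root_.smul_apply, _root_.sum_apply]
  rfl

lemma u3_norm (N : ℕ) : ‖u3 N‖ ≤ 1 := by
  apply ContinuousLinearMap.opNorm_le_bound _ zero_le_one
  intro v
  have e : ∑ l, v l • op (Am N l) = op (∑ l, v l • Am N l) := by
    simp [op, map_sum]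
  rw [u3_apply, e, norm_smul, op_norm, Complex.norm_real, Real.norm_of_nonneg (by norm_num), one_mul]
  by_cases hv : v = 0
  · subst hv; simp
  have hn : 0 < ‖v‖ := norm_pos_iff.mpr hv
  have h1 := Am_norm N (fun l => ((‖v‖⁻¹ : ℝ) : ℂ) * v l) (by
    intro l
    rw [norm_mul, Complex.norm_real, Real.norm_of_nonneg (by positivity), inv_mul_le_iff₀ hn, mul_one]
    exact norm_le_pi_norm v l)
  have e2 : ∑ l, (((‖v‖⁻¹ : ℝ) : ℂ) * v l) • Am N l = ((‖v‖⁻¹ : ℝ) : ℂ) • ∑ l, v l • Am N l := by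
    rw [Finset.smul_sum]
    exact Finset.sum_congr rfl fun l _ => by rw [smul_smul]
  rw [e2, norm_smul, Complex.norm_real, Real.norm_of_nonneg (by positivity), inv_mul_le_iff₀ hn] at h1
  nlinarith

lemma shiftM_norm_le (N : ℕ) (x : Fin N → ℂ) :
    ∑ i, ‖(shiftM N *ᵥ x) i‖ ^ 2 ≤ ∑ j, ‖x j‖ ^ 2 := by
  set V : ℕ → ℂ := fun k => if h : k < N then x ⟨k, h⟩ else 0 with hV
  have hVk : ∀ k : Fin N, V k = x k := by intro k; simp [hV]
  have h2 : ∑ i, ‖(shiftM N *ᵥ x) i‖ ^ 2 = ∑ k ∈ range N, ‖V (k + 1)‖ ^ 2 := by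
    rw [Finset.sum_range]
    exact Finset.sum_congr rfl fun k _ => by rw [shiftM_mulVec]
  have h3 : ∑ j, ‖x j‖ ^ 2 = ∑ k ∈ range N, ‖V k‖ ^ 2 := by
    rw [Finset.sum_range]
    exact Finset.sum_congr rfl fun k _ => by rw [hVk]
  have h4 := Finset.sum_range_succ' (fun k => ‖V k‖ ^ 2) N
  have h5 := Finset.sum_range_succ (fun k => ‖V k‖ ^ 2) N
  have h6 : ‖V N‖ ^ 2 = 0 := by simp [hV]
  rw [h4, h6] at h5
  have h7 : 0 ≤ ‖V 0‖ ^ 2 := by positivity
  rw [h2, h3]
  linarith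

/-- the entrywise conjugates of the three matrices -/
noncomputable def Bm (N : ℕ) (l : Fin 3) : Matrix (Fin N) (Fin N) ℂ := (Am N l).map (starRingEnd ℂ)

lemma Bm0 (N : ℕ) : Bm N 0 = 1 := by
  rw [Bm, Am0, Matrix.map_one _ (map_zero _) (map_one _)]

lemma Bm1 (N : ℕ) : Bm N 1 = Matrix.diagonal fun k : Fin N => (starRingEnd ℂ) (q ^ (k : ℕ)) := by
  rw [Bm, Am1, diagM, Matrix.diagonal_map (map_zero _)]

lemma Bm2 (N : ℕ) : Bm N 2 = shiftM N := by
  ext i j
  rw [Bm, Am2, Matrix.map_apply, shiftM_apply]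
  split_ifs <;> simp

lemma Bm_norm (N : ℕ) (l : Fin 3) : ‖Bm N l‖ ≤ 1 := by
  rw [l2_le_iff _ zero_le_one]
  intro x
  rw [one_pow, one_mul]
  have hl : l = 0 ∨ l = 1 ∨ l = 2 := by omega
  rcases hl with rfl | rfl | rfl
  · rw [Bm0, Matrix.one_mulVec]
  · rw [Bm1]
    refine Finset.sum_le_sum fun k _ => ?_
    rw [Matrix.mulVec_diagonal, norm_mul, RCLike.norm_conj, norm_pow, norm_q, one_pow, one_mul]
  · rw [Bm2]; exact shiftM_norm_le N x

/-- the diagonal sums `∑_j conj(A_l i j) (A_l k j)` -/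
lemma AB_entry (N : ℕ) (l : Fin 3) (i k : Fin N) : ∑ j, Bm N l i j * Am N l k j =
    if k = i then (if l = 2 ∧ ¬ ((i : ℕ) + 1 < N) then 0 else 1) else 0 := by
  have hl : l = 0 ∨ l = 1 ∨ l = 2 := by omega
  rcases hl with rfl | rfl | rfl
  · simp only [Bm0, Am0, Matrix.one_apply]
    simp only [mul_ite, mul_one, mul_zero, Finset.sum_ite_eq, Finset.mem_univ, if_true]
    simp [eq_comm]
  · have h1 : ∀ j, Bm N 1 i j * Am N 1 k j = if j = i ∧ k = i then 1 else 0 := by
      intro j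
      rw [Bm1, Am1, diagM, Matrix.diagonal_apply, Matrix.diagonal_apply]
      by_cases hij : i = j
      · subst hij
        by_cases hki : k = i
        · subst hki
          rw [if_pos rfl, if_pos rfl, if_pos ⟨rfl, rfl⟩, mul_comm, Complex.mul_conj,
            Complex.normSq_eq_norm_sq, norm_pow, norm_q]
          norm_num
        · rw [if_neg hki, mul_zero, if_neg (fun h => hki h.2)]
      · rw [if_neg hij, zero_mul, if_neg (fun h => hij h.1.symm)]
    simp only [h1]
    by_cases hki : k = i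
    · simp [hki]
    · simp [hki]
  · simp only [Bm2, Am2, shiftM_apply]
    by_cases hi : (i : ℕ) + 1 < N
    · rw [Finset.sum_eq_single (⟨i + 1, hi⟩ : Fin N)]
      · by_cases hki : k = i
        · subst hki; simp [hi]
        · have : ¬ ((i : ℕ) + 1 = k + 1) := fun e => hki (Fin.ext (by omega))
          rw [if_neg hki, if_neg this, mul_zero]
      · intro j _ hj
        have : ¬ ((j : ℕ) = i + 1) := fun e => hj (Fin.ext e)
        rw [if_neg this, zero_mul]
      · intro h'; exact absurd (Finset.mem_univ _) h'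
    · rw [Finset.sum_eq_zero]
      · simp [hi]
      · intro j _
        have : ¬ ((j : ℕ) = i + 1) := fun e => hi (e ▸ j.2)
        rw [if_neg this, zero_mul]

lemma opNorm_lower (M : ℕ)
    (T : Matrix (Fin (M + 1)) (Fin (M + 1))
      (EuclideanSpace ℂ (Fin (M + 1)) →L[ℂ] EuclideanSpace ℂ (Fin (M + 1))))
    (hT : ∀ i j, T i j = ((125 / 306 : ℝ) : ℂ) • ∑ l, Bm (M + 1) l i j • op (Am (M + 1) l)) (a : ℝ)
    (ha : opNorm (EuclideanSpace ℂ (Fin (M + 1))) (M + 1) T ≤ a) :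
    (125 / 306) ^ 2 * (9 * M + 4) ≤ a ^ 2 * (M + 1) := by
  have key : ∀ C : ℝ, 0 ≤ C → (∀ ξ : Fin (M + 1) → EuclideanSpace ℂ (Fin (M + 1)),
      ∑ i, ‖∑ j, T i j (ξ j)‖ ^ 2 ≤ C ^ 2 * ∑ j, ‖ξ j‖ ^ 2) →
      (125 / 306) ^ 2 * (9 * M + 4) ≤ C ^ 2 * ((M : ℝ) + 1) := by
    intro C hC hC2
    have h1 := hC2 (fun j => EuclideanSpace.single j (1 : ℂ))
    have e1 : ∀ i, ∑ j, T i j (EuclideanSpace.single j (1 : ℂ)) =
        ((125 / 306 * (if (i : ℕ) + 1 < M + 1 then 3 else 2) : ℝ) : ℂ) •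
          EuclideanSpace.single i (1 : ℂ) := by
      intro i
      ext k
      have e2 : ∀ j, (T i j (EuclideanSpace.single j (1 : ℂ))) k =
          ((125 / 306 : ℝ) : ℂ) * ∑ l, Bm (M + 1) l i j * Am (M + 1) l k j := by
        intro j
        rw [hT]
        simp only [_root_.smul_apply, _root_.sum_apply, PiLp.smul_apply, WithLp.ofLp_sum,
          Finset.sum_apply, smul_eq_mul, op_apply]
        congr 1
        refine Finset.sum_congr rfl fun l _ => ?_
        congr 1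
        rw [Finset.sum_eq_single j]
        · rw [PiLp.single_apply, if_pos rfl, mul_one]
        · intro j' _ hj'
          rw [PiLp.single_apply, if_neg hj', mul_zero]
        · intro h'; exact absurd (Finset.mem_univ _) h'
      rw [WithLp.ofLp_sum, Finset.sum_apply]
      simp only [e2]
      rw [← Finset.mul_sum, Finset.sum_comm]
      simp only [AB_entry, PiLp.smul_apply, PiLp.single_apply, smul_eq_mul]
      rw [Fin.sum_univ_three]
      by_cases hki : k = i
      · subst hki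
        by_cases hi : (k : ℕ) + 1 < M + 1
        · simp [hi]; ring
        · simp [hi]; ring
      · simp [hki]
    simp only [e1, norm_smul, Complex.norm_real, PiLp.norm_single, norm_one, mul_one, one_pow,
      Finset.sum_const, Finset.card_univ, Fintype.card_fin, nsmul_eq_mul] at h1
    rw [Fin.sum_univ_castSucc] at h1
    have e3 : ∀ i : Fin M, ‖(125 / 306 * (if ((Fin.castSucc i : Fin (M + 1)) : ℕ) + 1 < M + 1 then 3 else 2) : ℝ)‖ ^ 2 =
        (125 / 306) ^ 2 * 9 := by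
      intro i
      have : ((Fin.castSucc i : Fin (M + 1)) : ℕ) + 1 < M + 1 := by
        have := i.2
        rw [Fin.val_castSucc]; omega
      rw [if_pos this, Real.norm_of_nonneg (by norm_num)]
      norm_num
    have e4 : ‖(125 / 306 * (if ((Fin.last M : Fin (M + 1)) : ℕ) + 1 < M + 1 then 3 else 2) : ℝ)‖ ^ 2 =
        (125 / 306) ^ 2 * 4 := by
      rw [Fin.val_last, if_neg (lt_irrefl _), Real.norm_of_nonneg (by norm_num)]
      norm_num
    rw [e4, Finset.sum_congr rfl (fun i _ => e3 i), Finset.sum_const, Finset.card_univ, Fintype.card_fin,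
      nsmul_eq_mul] at h1
    push_cast at h1
    linarith
  -- pass to the infimum
  have h2 : Real.sqrt ((125 / 306) ^ 2 * (9 * M + 4) / ((M : ℝ) + 1)) ≤
      opNorm (EuclideanSpace ℂ (Fin (M + 1))) (M + 1) T := by
    apply le_csInf (opNorm_set_nonempty T)
    rintro C ⟨hC, hC2⟩
    have h3 := key C hC hC2
    rw [Real.sqrt_le_left hC, div_le_iff₀ (by positivity)]
    exact h3
  have h3 := h2.trans ha
  have h4 : 0 ≤ a := (Real.sqrt_nonneg _).trans h3
  rw [Real.sqrt_le_left h4, div_le_iff₀ (by positivity)] at h3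
  exact h3

/-- the lower bound `α(ℓ_∞³) ≥ 125/102` -/
theorem alpha_ge : (125 : ℝ) / 102 ≤ alpha (Fin 3 → ℂ) := by
  have key : ∀ M : ℕ, (125 / 306) ^ 2 * (9 * M + 4) ≤ alpha (Fin 3 → ℂ) ^ 2 * ((M : ℝ) + 1) := by
    intro M
    set x : Matrix (Fin (M + 1)) (Fin (M + 1)) (Fin 3 → ℂ) := fun i j l => Bm (M + 1) l i j with hx
    have hx1 : minNorm (M + 1) x ≤ 1 := by
      apply minNorm_le
      intro f hf
      have e1 : x.map f = ∑ l, f (Pi.single l 1) • Bm (M + 1) l := by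
        ext i j
        rw [Matrix.map_apply, Matrix.sum_apply]
        have e2 : x i j = ∑ l, (Bm (M + 1) l i j) • (Pi.single l (1 : ℂ) : Fin 3 → ℂ) := by
          ext k
          simp [hx, Pi.single_apply]
        rw [e2, map_sum]
        refine Finset.sum_congr rfl fun l _ => ?_
        rw [map_smul, Matrix.smul_apply]
        simp only [smul_eq_mul]
        ring
      rw [e1]
      have h1 : ∑ l, ‖f (Pi.single l 1)‖ ≤ 1 := by
        have hc : ∀ z : ℂ, ∃ c : ℂ, ‖c‖ ≤ 1 ∧ c * z = (‖z‖ : ℂ) := by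
          intro z
          by_cases hz : z = 0
          · exact ⟨0, by simp, by simp [hz]⟩
          · refine ⟨conj z / ‖z‖, ?_, ?_⟩
            · rw [norm_div, RCLike.norm_conj, Complex.norm_real, norm_norm]
              rw [div_self (norm_ne_zero_iff.mpr hz)]
            · rw [div_mul_eq_mul_div, mul_comm, Complex.mul_conj, Complex.normSq_eq_norm_sq]
              have : (‖z‖ : ℂ) ≠ 0 := by exact_mod_cast norm_ne_zero_iff.mpr hz
              push_cast
              field_simp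
        choose c hc1 hc2 using hc
        set v : Fin 3 → ℂ := fun l => c (f (Pi.single l 1)) with hv
        have e3 : f v = ((∑ l, ‖f (Pi.single l 1)‖ : ℝ) : ℂ) := by
          have e4 : v = ∑ l, c (f (Pi.single l 1)) • (Pi.single l (1 : ℂ) : Fin 3 → ℂ) := by
            ext k
            simp [hv, Pi.single_apply]
          rw [e4, map_sum, Complex.ofReal_sum]
          refine Finset.sum_congr rfl fun l _ => ?_
          rw [map_smul, smul_eq_mul, hc2]
        have e5 : ‖v‖ ≤ 1 := (pi_norm_le_iff_of_nonneg zero_le_one).mpr fun l => hc1 _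
        have h3 : ‖f v‖ ≤ 1 * 1 := (f.le_opNorm v).trans (by gcongr)
        rw [e3, Complex.norm_real, Real.norm_of_nonneg (Finset.sum_nonneg fun _ _ => norm_nonneg _)] at h3
        linarith
      calc ‖∑ l, f (Pi.single l 1) • Bm (M + 1) l‖ ≤ ∑ l, ‖f (Pi.single l 1)‖ * 1 := by
            refine (norm_sum_le _ _).trans (Finset.sum_le_sum fun l _ => ?_)
            rw [norm_smul]
            have := Bm_norm (M + 1) l
            gcongr
        _ ≤ 1 := by simpa using h1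
    have h2 := le_alpha (ub_linf 3) x hx1 (EuclideanSpace ℂ (Fin (M + 1))) (u3 (M + 1)) (u3_norm (M + 1))
    exact opNorm_lower M (x.map (u3 (M + 1))) (by
      intro i j
      rw [Matrix.map_apply, u3_apply]) _ h2
  have h0 : 0 ≤ alpha (Fin 3 → ℂ) := (Real.sqrt_nonneg _).trans (lower_linf 3)
  by_contra hcon
  push Not at hcon
  set a := alpha (Fin 3 → ℂ) with ha
  have h1 : a ^ 2 < (125 / 102) ^ 2 := by gcongr
  obtain ⟨M, hM⟩ := exists_nat_gt (1 / ((125 / 102) ^ 2 - a ^ 2))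
  have h2 : 0 < (125 / 102) ^ 2 - a ^ 2 := by linarith
  rw [div_lt_iff₀ h2] at hM
  have h3 := key M
  nlinarith

end Pool.Agent.R735.AInf
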